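import Mathlib

/-!
# MP_db1bc6_al : the groups `G_φ` are primitive

`V k` is the vertex set of the tree `T_k`: `none` is the centre (vertex `1`), and
`some (t, j)` is the vertex at distance `j + 1` from the centre on the path `P_t`.
An admissible colouring is given by the colours `a j` of the edges `e^{(0)}_{j+1}` of `P_0`
(`j < k`), consecutive ones being different; the edge `e^{(t)}_{j+1}` has colour `a j + t`.
-/

namespace Pool.Agent.H315_Tree

/-- The vertex set of the tree `T_k`. -/
abbrev V (k : ℕ) := Option (ZMod 3 × Fin k)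

/-- The vertex at distance `i` from the centre on `P_t` (for `i ≤ k`). -/
def vt (k : ℕ) (t : ZMod 3) : ℕ → V k
  | 0 => none
  | i + 1 => if h : i < k then some (t, ⟨i, h⟩) else none

/-- The map `ρ_c`: it exchanges the two ends of every edge of colour `c` and fixes all other
vertices.  The edge `e^{(t)}_{j+1}` joins the vertices at distance `j` and `j + 1` on `P_t`
and has colour `a j + t`. -/
def step (k : ℕ) (a : ℕ → ZMod 3) (c : ZMod 3) : V k → V k
  | none => vt k (c - a 0) 1
  | some (t, j) =>
      if a j + t = c then vt k t j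
      else if (j : ℕ) + 1 < k ∧ a (j + 1) + t = c then vt k t (j + 2)
      else some (t, j)

variable {k : ℕ} {a : ℕ → ZMod 3}

lemma vt_succ (t : ZMod 3) {i : ℕ} (h : i < k) : vt k t (i + 1) = some (t, ⟨i, h⟩) := by
  simp [vt, h]

lemma step_up (t : ZMod 3) {i : ℕ} (h : i < k)
    (ha : ∀ j, j + 1 < k → a j ≠ a (j + 1)) : step k a (a i + t) (vt k t i) = vt k t (i + 1) := by
  cases i with
  | zero => simp [vt, step]
  | succ i =>
    rw [vt_succ t (by omega : i < k)]
    have h1 : ¬ (a i + t = a (i + 1) + t) := by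
      intro h'
      exact ha i h (add_right_cancel h')
    simp only [step, h1, if_false, h, true_and, if_true]

lemma step_down (t : ZMod 3) {i : ℕ} (h : i < k) :
    step k a (a i + t) (vt k t (i + 1)) = vt k t i := by
  rw [vt_succ t h]
  simp [step]

lemma step_fix (t c : ZMod 3) {i : ℕ} (h : i < k) (h1 : c ≠ a i + t)
    (h2 : i + 1 < k → c ≠ a (i + 1) + t) :
    step k a c (vt k t (i + 1)) = vt k t (i + 1) := by
  rw [vt_succ t h]
  have h3 : ¬ (a i + t = c) := fun h' => h1 h'.symm
  have h4 : ¬ (i + 1 < k ∧ a (i + 1) + t = c) := fun h' => h2 h'.1 h'.2.symm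
  simp only [step, h3, h4, if_false]

lemma exists_vt (v : V k) : v = none ∨ ∃ t i, i < k ∧ v = vt k t (i + 1) := by
  rcases v with _ | ⟨t, j, hj⟩
  · exact Or.inl rfl
  · exact Or.inr ⟨t, j, hj, (vt_succ t hj).symm⟩

lemma step_invol (hk : 1 ≤ k) (ha : ∀ j, j + 1 < k → a j ≠ a (j + 1)) (c : ZMod 3) (v : V k) :
    step k a c (step k a c v) = v := by
  rcases exists_vt v with rfl | ⟨t, i, hi, rfl⟩
  · have h1 : step k a c (none : V k) = vt k (c - a 0) 1 := rfl
    rw [h1]
    have h2 := step_down (a := a) (c - a 0) (show 0 < k by omega)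
    rw [add_sub_cancel] at h2
    simpa [vt] using h2
  · by_cases h1 : c = a i + t
    · subst h1
      rw [step_down t hi, step_up t hi ha]
    · by_cases h2 : i + 1 < k ∧ c = a (i + 1) + t
      · obtain ⟨h2, rfl⟩ := h2
        rw [step_up t h2 ha, step_down t h2]
      · have h3 : i + 1 < k → c ≠ a (i + 1) + t := fun h h' => h2 ⟨h, h'⟩
        rw [step_fix t c hi h1 h3, step_fix t c hi h1 h3]

/-- The involution `ρ_c`. -/
def rho (hk : 1 ≤ k) (ha : ∀ j, j + 1 < k → a j ≠ a (j + 1)) (c : ZMod 3) :
    Equiv.Perm (V k) where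
  toFun := step k a c
  invFun := step k a c
  left_inv := step_invol hk ha c
  right_inv := step_invol hk ha c

/-- The group `G_φ = ⟨ρ_0, ρ_1, ρ_2⟩`. -/
def G (hk : 1 ≤ k) (ha : ∀ j, j + 1 < k → a j ≠ a (j + 1)) : Subgroup (Equiv.Perm (V k)) :=
  Subgroup.closure (Set.range (rho hk ha))

/-- A set of vertices closed under all `ρ_c` and not empty is everything. -/
lemma conn (ha : ∀ j, j + 1 < k → a j ≠ a (j + 1)) (C : Set (V k))
    (hC : ∀ c, ∀ v ∈ C, step k a c v ∈ C) {v : V k} (hv : v ∈ C) (u : V k) : u ∈ C := by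
  have hdown : ∀ t i, i ≤ k → vt k t i ∈ C → (none : V k) ∈ C := by
    intro t i
    induction i with
    | zero => intro _ h; exact h
    | succ i ih =>
      intro hi h
      apply ih (by omega)
      have := hC (a i + t) _ h
      rwa [step_down t (by omega)] at this
  have hroot : (none : V k) ∈ C := by
    rcases exists_vt v with rfl | ⟨t, i, hi, rfl⟩
    · exact hv
    · exact hdown t (i + 1) hi hv
  have hup : ∀ t i, i ≤ k → vt k t i ∈ C := by
    intro t i
    induction i with
    | zero => intro _; exact hroot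
    | succ i ih =>
      intro hi
      have := hC (a i + t) _ (ih (by omega))
      rwa [step_up t (by omega) ha] at this
  rcases exists_vt u with rfl | ⟨t, i, hi, rfl⟩
  · exact hroot
  · exact hup t (i + 1) hi

/-- The combinatorial heart: an equivalence relation on the vertices which is respected by all
`ρ_c` and relates the centre to another vertex relates any two vertices. -/
theorem congr_trivial (hk : 1 ≤ k) (ha : ∀ j, j + 1 < k → a j ≠ a (j + 1))
    (r : V k → V k → Prop) (hrefl : ∀ v, r v v) (hsymm : ∀ v w, r v w → r w v)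
    (htrans : ∀ u v w, r u v → r v w → r u w)
    (hinv : ∀ c v w, r v w → r (step k a c v) (step k a c w))
    (w0 : V k) (hw0 : w0 ≠ none) (hr0 : r none w0) : ∀ u v, r u v := by
  by_contra hcon
  -- every class has at least two elements
  have F1 : ∀ v : V k, ∃ w, w ≠ v ∧ r v w := by
    intro v
    refine conn ha {v | ∃ w, w ≠ v ∧ r v w} ?_ (v := none) ⟨w0, hw0, hr0⟩ v
    rintro c v ⟨w, hw, hr⟩
    refine ⟨step k a c w, ?_, hinv c _ _ hr⟩
    intro h
    apply hw
    have := congrArg (step k a c) h
    rwa [step_invol hk ha, step_invol hk ha] at this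
  -- external colours
  set X : V k → ZMod 3 → Prop := fun v c => ¬ r v (step k a c v) with hX
  have Xcongr : ∀ v w c, r v w → X v c → X w c := by
    intro v w c hr hx h
    apply hx
    exact htrans _ _ _ (htrans _ _ _ hr h) (hsymm _ _ (hinv c _ _ hr))
  have Xne : ∀ v, ∃ c, X v c := by
    intro v
    by_contra hno
    have hno' : ∀ c, r v (step k a c v) := by
      intro c
      by_contra h
      exact hno ⟨c, h⟩
    have hall : ∀ u, r v u := by
      intro u
      refine conn ha {x | r v x} ?_ (v := v) (hrefl v) u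
      intro c x hx
      exact htrans _ _ _ (hno' c) (hinv c _ _ hx)
    exact hcon fun x y => htrans _ _ _ (hsymm _ _ (hall x)) (hall y)
  have Xstep : ∀ v c, X v c → X (step k a c v) c := by
    intro v c hx h
    rw [step_invol hk ha] at h
    exact hx (hsymm _ _ h)
  have Xdeg : ∀ t i c, i < k → X (vt k t (i + 1)) c →
      c = a i + t ∨ (i + 1 < k ∧ c = a (i + 1) + t) := by
    intro t i c hi hx
    by_contra h
    push Not at h
    apply hx
    rw [step_fix t c hi h.1 h.2]
    exact hrefl _
  -- some colour is internal at the centre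
  have hc0 : ∃ c0, ¬ X none c0 := by
    by_contra hall
    push Not at hall
    obtain ⟨w, hw, hr⟩ := F1 none
    rcases exists_vt w with rfl | ⟨t, i, hi, rfl⟩
    · exact hw rfl
    · have h3 : ∀ c : ZMod 3, c = a i + t ∨ c = a (i + 1) + t := by
        intro c
        rcases Xdeg t i c hi (Xcongr _ _ c hr (hall c)) with h | ⟨-, h⟩
        · exact Or.inl h
        · exact Or.inr h
      have key : ∀ x y : ZMod 3, ¬ ∀ c : ZMod 3, c = x ∨ c = y := by decide
      exact key _ _ h3
  obtain ⟨c0, hc0⟩ := hc0
  obtain ⟨t, rfl⟩ : ∃ t, c0 = a 0 + t := ⟨c0 - a 0, by ring⟩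
  have hr1 : r none (vt k t 1) := by
    by_contra h
    apply hc0
    intro h'
    apply h
    have := step_up (a := a) t (show 0 < k by omega) ha
    simp only [vt] at this h' ⊢
    rwa [this] at h'
  obtain ⟨d, hd⟩ := Xne none
  have hd1 := Xcongr _ _ d hr1 hd
  have hdd : 1 < k ∧ d = a 1 + t := by
    rcases Xdeg t 0 d (by omega) hd1 with h | h
    · exact absurd (h ▸ hd) hc0
    · exact h
  obtain ⟨hk2, hdt⟩ := hdd
  obtain ⟨s, hs⟩ : ∃ s, d = a 0 + s := ⟨d - a 0, by ring⟩
  have hst : a 0 + s = a 1 + t := hs ▸ hdt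
  -- the walk along `P_t` is the walk along `P_s` delayed by one step
  have main : ∀ j, j + 1 < k → r (vt k s (j + 1)) (vt k t (j + 2)) ∧
      ((X (vt k s (j + 1)) (a j + s) ∧ a j + s = a (j + 1) + t) ∨
       (¬ X (vt k s (j + 1)) (a j + s) ∧ ¬ X (vt k s (j + 1)) (a (j + 1) + t))) := by
    intro j
    induction j with
    | zero =>
      intro h
      have h1 := step_up (a := a) s (show 0 < k by omega) ha
      have h2 := step_up (a := a) t (show 1 < k by omega) ha
      refine ⟨?_, Or.inl ⟨?_, hst⟩⟩
      · have h3 := hinv (a 0 + s) _ _ hr1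
        have h4 : step k a (a 0 + s) none = vt k s 1 := h1
        rw [h4] at h3
        rw [hst, h2] at h3
        exact h3
      · have h4 : step k a (a 0 + s) none = vt k s 1 := h1
        have h5 := Xstep _ _ hd
        rw [hs, h4] at h5
        exact h5
    | succ j ih =>
      intro h
      obtain ⟨hr, hcase⟩ := ih (by omega)
      have hsu := step_up (a := a) s (show j + 1 < k by omega) ha
      have htu := step_up (a := a) t (show j + 2 < k by omega) ha
      have hne1 : a j ≠ a (j + 1) := ha j (by omega)
      have hne2 : a (j + 1) ≠ a (j + 2) := ha (j + 1) (by omega)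
      rcases hcase with ⟨hXA, heq⟩ | ⟨hB1, hB2⟩
      · by_cases hx : X (vt k s (j + 1)) (a (j + 1) + s)
        · have hx' := Xcongr _ _ _ hr hx
          have heq2 : a (j + 1) + s = a (j + 2) + t := by
            rcases Xdeg t (j + 1) _ (by omega) hx' with h' | ⟨-, h'⟩
            · exfalso
              rw [← heq] at h'
              exact hne1 (add_right_cancel h').symm
            · exact h'
          have h3 := hinv (a (j + 1) + s) _ _ hr
          rw [hsu] at h3
          rw [heq2, htu] at h3
          refine ⟨h3, Or.inl ⟨?_, heq2⟩⟩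
          have h5 := Xstep _ _ hx
          rw [hsu] at h5
          exact h5
        · have hx1 : r (vt k s (j + 1)) (vt k s (j + 2)) := by
            by_contra h'
            apply hx
            intro h''
            rw [hsu] at h''
            exact h' h''
          have hx2 : ¬ X (vt k t (j + 2)) (a (j + 2) + t) := by
            intro h'
            have h'' := Xcongr _ _ _ (hsymm _ _ hr) h'
            rcases Xdeg s j _ (by omega) h'' with h3 | ⟨-, h3⟩
            · rw [heq] at h3
              exact hne2 (add_right_cancel h3).symm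
            · rw [h3] at h''
              exact hx h''
          have hx3 : r (vt k t (j + 2)) (vt k t (j + 3)) := by
            by_contra h'
            apply hx2
            intro h''
            rw [htu] at h''
            exact h' h''
          refine ⟨htrans _ _ _ (hsymm _ _ hx1) (htrans _ _ _ hr hx3), Or.inr ⟨?_, ?_⟩⟩
          · intro h'
            exact hx (Xcongr _ _ _ (hsymm _ _ hx1) h')
          · intro h'
            exact hx2 (Xcongr _ _ _ hr (Xcongr _ _ _ (hsymm _ _ hx1) h'))
      · obtain ⟨c, hc⟩ := Xne (vt k s (j + 1))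
        have h1 : c = a (j + 1) + s := by
          rcases Xdeg s j _ (by omega) hc with h' | ⟨-, h'⟩
          · rw [h'] at hc; exact absurd hc hB1
          · exact h'
        have h2 : c = a (j + 2) + t := by
          rcases Xdeg t (j + 1) _ (by omega) (Xcongr _ _ _ hr hc) with h' | ⟨-, h'⟩
          · rw [h'] at hc; exact absurd hc hB2
          · exact h'
        have heq2 : a (j + 1) + s = a (j + 2) + t := h1 ▸ h2
        have h3 := hinv (a (j + 1) + s) _ _ hr
        rw [hsu] at h3
        rw [heq2, htu] at h3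
        refine ⟨h3, Or.inl ⟨?_, heq2⟩⟩
        rw [h1] at hc
        have h5 := Xstep _ _ hc
        rw [hsu] at h5
        exact h5
  -- the end of the two paths
  obtain ⟨j, hj⟩ : ∃ j, k = j + 2 := ⟨k - 2, by omega⟩
  obtain ⟨hr, hcase⟩ := main j (by omega)
  have hne1 : a j ≠ a (j + 1) := ha j (by omega)
  have hsu := step_up (a := a) s (show j + 1 < k by omega) ha
  obtain ⟨c, hc⟩ := Xne (vt k t (j + 2))
  have hc1 : c = a (j + 1) + t := by
    rcases Xdeg t (j + 1) _ (by omega) hc with h' | ⟨h', -⟩
    · exact h'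
    · omega
  have hc2 := Xcongr _ _ _ (hsymm _ _ hr) hc
  rw [hc1] at hc2
  rcases hcase with ⟨-, heq⟩ | ⟨-, hB⟩
  · have hx : ¬ X (vt k s (j + 1)) (a (j + 1) + s) := by
      intro hx
      rcases Xdeg t (j + 1) _ (by omega) (Xcongr _ _ _ hr hx) with h' | ⟨h', -⟩
      · rw [← heq] at h'
        exact hne1 (add_right_cancel h').symm
      · omega
    have hx1 : r (vt k s (j + 1)) (vt k s (j + 2)) := by
      by_contra h'
      apply hx
      intro h''
      rw [hsu] at h''
      exact h' h''
    obtain ⟨e, he⟩ := Xne (vt k s (j + 2))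
    rcases Xdeg s (j + 1) _ (by omega) he with h' | ⟨h', -⟩
    · rw [h'] at he
      exact hx (Xcongr _ _ _ (hsymm _ _ hx1) he)
    · omega
  · exact hB hc2

/-- `G_φ` is transitive on the vertices. -/
lemma transitive (hk : 1 ≤ k) (ha : ∀ j, j + 1 < k → a j ≠ a (j + 1)) :
    MulAction.IsPretransitive (G hk ha) (V k) := by
  refine ⟨fun v u => ?_⟩
  have := conn (k := k) (a := a) ha {u | ∃ g : G hk ha, g • v = u} ?_ (v := v) ⟨1, one_smul _ _⟩ u
  · exact this
  · rintro c _ ⟨g, rfl⟩
    refine ⟨⟨rho hk ha c, Subgroup.subset_closure ⟨c, rfl⟩⟩ * g, ?_⟩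
    rw [mul_smul]
    rfl

/-- **Main theorem.** For every `k ≥ 1` and every admissible colouring `φ` of the tree `T_k`
the group `G_φ` is a primitive permutation group on the `3k + 1` vertices. -/
theorem primitive (hk : 1 ≤ k) (ha : ∀ j, j + 1 < k → a j ≠ a (j + 1)) :
    MulAction.IsPreprimitive (G hk ha) (V k) := by
  have := transitive hk ha
  refine MulAction.IsPreprimitive.of_isTrivialBlock_base (none : V k) ?_
  intro B hmem hB
  by_cases hs : B.Subsingleton
  · exact Or.inl hs
  right
  obtain ⟨w0, hw0B, hw0⟩ : ∃ w0 ∈ B, w0 ≠ none := by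
    by_contra h
    push Not at h
    exact hs fun x hx y hy => by rw [h x hx, h y hy]
  have key := congr_trivial hk ha (fun v w => ∀ g : G hk ha, (g • v ∈ B ↔ g • w ∈ B))
    (fun v g => Iff.rfl) (fun v w h g => (h g).symm) (fun u v w h1 h2 g => (h1 g).trans (h2 g))
    (fun c v w h g => by
      have := h (g * ⟨rho hk ha c, Subgroup.subset_closure ⟨c, rfl⟩⟩)
      rw [mul_smul, mul_smul] at this
      exact this)
    w0 hw0 (by
      have aux : ∀ x y : V k, x ∈ B → y ∈ B → ∀ g : G hk ha, g • x ∈ B → g • y ∈ B := by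
        intro x y hx hy g hg
        have h1 := hB.smul_eq_of_mem hx hg
        rw [← h1]
        exact Set.smul_mem_smul_set hy
      exact fun g => ⟨aux _ _ hmem hw0B g, aux _ _ hw0B hmem g⟩)
  refine Set.eq_univ_of_forall fun u => ?_
  have := key none u 1
  rw [one_smul, one_smul] at this
  exact this.1 hmem

end Pool.Agent.H315_Tree
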